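import Pool.Agent.Helper33.TW.C17
import Pool.Agent.Helper54.PT.WireC
import Pool.Agent.Helper54.PT.DefsG

/-!
# TG module G3: the local condition at the primes dividing `D`
-/

set_option autoImplicit false
set_option linter.unusedSectionVars false

namespace Pool.Agent.Helper34.TG

open Polynomial Finset Pool.Agent.Helper54.PT Pool.Agent.Helper47.BSD Pool.Agent.Helper33.TW

section

variable {F : Type} [Field F] {ℓ : ℕ} {ι : Type} [Fintype ι] [DecidableEq ι] {σ : Type}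
  [Fintype σ] [DecidableEq σ] {a : ι → ℕ} {e : ι → F[X]} {R : σ → Prm F}

lemma e_sub_ne (hS : SetupG R e) {i j : ι} (hij : i ≠ j) : e i - e j ≠ 0 :=
  sub_ne_zero.2 (hS.ne i j hij)

lemma tw_sub_eq (D : Finset (Prm F)) (i j : ι) :
    tw e D i - tw e D j = (∏ P ∈ D, pK P) * qK (e i - e j) := by
  rw [tw_eq, tw_eq, qK, qK, qK, map_sub, mul_sub]

lemma tw_sub_ne (hS : SetupG R e) (D : Finset (Prm F)) (i j : ι) (hij : i ≠ j) :
    tw e D i - tw e D j ≠ 0 := by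
  rw [tw_sub_eq]
  exact mul_ne_zero (prod_pK_ne_zero D id) (qK_ne_zero (e_sub_ne hS hij))

lemma not_dvd_sub (hS : SetupG R e) {P : Prm F} (hP : ∀ r, P ≠ R r) {i j : ι} (hij : i ≠ j) :
    ¬ P.1 ∣ e i - e j := by
  intro h
  obtain ⟨r, hr⟩ := (hS.mem P).2 ⟨i, j, hij, h⟩
  exact hP r hr.symm

lemma ordK_not_dvd {P : Prm F} {f : F[X]} (hf : ¬ P.1 ∣ f) : ordK P (qK f) = 0 := by
  have h0 : f ≠ 0 := fun h => hf (h ▸ dvd_zero _)
  rw [qK, ordK_poly P h0, c5_mult_eq_zero hf, Nat.cast_zero]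

lemma rsK_symm {lg : F → ZMod ℓ} (hlg : IsLog ℓ lg) (hm : lg (-1) = 0) (P : Prm F)
    (hS : SetupG R e) {i j : ι} (hij : i ≠ j) :
    rsK lg P (qK (e i - e j)) = rsK lg P (qK (e j - e i)) := by
  have h1 : qK (e i - e j) = qK (C (-1)) * qK (e j - e i) := by
    rw [qK, qK, qK, ← map_mul]
    congr 1
    rw [C_neg, C_1]
    ring
  have h2 : (-1 : F) ≠ 0 := neg_ne_zero.2 one_ne_zero
  rw [h1, rsK_mul hlg P (qK_ne_zero (C_ne_zero.2 h2)) (qK_ne_zero (e_sub_ne hS hij.symm)),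
    rsK_const hlg P h2, hm, mul_zero, zero_add]

end

end Pool.Agent.Helper34.TG

namespace Pool.Agent.Helper54.PT

open Polynomial Finset Pool.Agent.Helper47.BSD Pool.Agent.Helper33.TW Pool.Agent.Helper34.TG

section Global

variable {F : Type} [Field F] [Finite F] {ℓ : ℕ} [Fact ℓ.Prime] {ι : Type} [Fintype ι]
  [DecidableEq ι] {σ : Type} [Fintype σ] [DecidableEq σ] {a : ι → ℕ} {e : ι → F[X]}
  {R : σ → Prm F} {lg : F → ZMod ℓ}

/-- G3: the primes dividing `D` -/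
theorem selmer_ramG (hq : ℓ ∣ Nat.card F - 1) (hlg : IsLog ℓ lg) (hm : lg (-1) = 0)
    (ha : ∀ i, ¬ ℓ ∣ a i) (hs : ¬ ℓ ∣ ∑ i, a i) (hS : SetupG R e) (D : Finset (Prm F))
    (hD : ∀ P ∈ D, ∀ r, P ≠ R r) (d : ι → (RatFunc F)ˣ) (hd : d ∈ selmerSet ℓ a (tw e D))
    (P : Prm F) (hP : P ∈ D) (j : ι) :
    rsK lg P (d j : RatFunc F) =
      (ordK P (d j : RatFunc F) : ZMod ℓ) * ∑ P' ∈ D.erase P, sy lg P.1 P'.1 +
      ∑ m, (a m : ZMod ℓ) * (asum ℓ a)⁻¹ *
        ((ordK P (d j : RatFunc F) : ZMod ℓ) - (ordK P (d m : RatFunc F) : ZMod ℓ)) *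
          rsK lg P (algebraMap F[X] (RatFunc F) (e m - e j)) := by
  have hℓ : ℓ.Prime := Fact.out
  obtain ⟨p, hp, hchar⟩ := exists_charP F
  obtain ⟨v, hvn, hv⟩ := exists_absP P
  have hdP := hd v hvn
  have := ultra_completion v p hp
  let := nontrivNormed v hvn
  have hk := lf_absP hq P v hv
  have hnorm : ∀ x : RatFunc F, ‖algebraMap (RatFunc F) v.Completion x‖ = v x := norm_algebraMap v
  have hfun : (fun i => algebraMap (RatFunc F) v.Completion (tw e D i)) =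
      fun i => algebraMap (RatFunc F) v.Completion (∏ P ∈ D, pK P) *
        algebraMap (RatFunc F) v.Completion (qK (e i)) := by
    funext i
    rw [tw_eq, map_mul]
  have hE := tw_sub_ne hS D
  rw [hfun] at hdP
  have hl : (ℓ : ℤ) ≠ 1 := by exact_mod_cast hℓ.one_lt.ne'
  have hD1 : v (∏ P ∈ D, pK P) = v (pK P) ^ (1 : ℤ) := by
    have h0 : ∏ P ∈ D, pK P ≠ 0 := prod_pK_ne_zero D id
    rw [hv _ h0, hv _ (pK_ne_zero P), zpow_one]
    congr 2
    rw [prod_aux (isAdd_ordK P), sum_congr rfl fun Q _ => ordK_prime P Q, ordK_prime, if_pos rfl,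
      sum_ite_eq, if_pos hP]
  have hsub : ∀ i j, i ≠ j → v (qK (e i) - qK (e j)) = 1 := by
    intro i j hij
    have h1 : qK (e i) - qK (e j) = qK (e i - e j) := by rw [qK, qK, qK, map_sub]
    rw [h1, hv _ (qK_ne_zero (e_sub_ne hS hij)), ordK_not_dvd (not_dvd_sub hS (hD P hP) hij)]
    simp
  obtain ⟨c, x, hcx⟩ := loc_ram_full (k := v.Completion) hℓ ha hs hk
    (algebraMap (RatFunc F) v.Completion (∏ P ∈ D, pK P)) 1
    (fun h => hl (Int.eq_one_of_dvd_one (Int.natCast_nonneg _) h))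
    (by rw [hnorm, hnorm]; exact hD1)
    (fun i => algebraMap (RatFunc F) v.Completion (qK (e i)))
    (fun i => by rw [hnorm]; exact abs_qK_le P hv (e i))
    (fun i j hij => by rw [← map_sub, hnorm]; exact hsub i j hij)
    (mapUnits (algebraMap (RatFunc F) v.Completion) d) hdP
  rw [← hfun] at hcx
  have ht0 : ∀ j, ∏ i, tt ℓ a (tw e D) i j ^ c i ≠ 0 := fun j =>
    prod_ne_zero_iff.2 fun i _ => pow_ne_zero _ (tt_ne_zero hE i j)
  have hcl : ∀ j, (ℓ : ℤ) ∣ ordK P ((d j : RatFunc F) / ∏ i, tt ℓ a (tw e D) i j ^ c i) ∧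
      rsK lg P ((d j : RatFunc F) / ∏ i, tt ℓ a (tw e D) i j ^ c i) = 0 := fun j =>
    class_of_pow_absP hlg P v hv (div_ne_zero (d j).ne_zero (ht0 j))
      ⟨x j, transfer hE d c x hcx j⟩
  have h1 : ∀ j, (fun x => (ordK P x : ZMod ℓ)) (∏ i, tt ℓ a (tw e D) i j ^ c i) =
      1 * (fun m => (ordK P (d m : RatFunc F) : ZMod ℓ)) j := by
    intro j
    have h2 := (ZMod.intCast_zmod_eq_zero_iff_dvd _ ℓ).2 (hcl j).1
    rw [(isAdd_ordK P).div (d j).ne_zero (ht0 j), Int.cast_sub] at h2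
    rw [one_mul]
    exact (sub_eq_zero.1 h2).symm
  have h2 : rsK lg P (d j : RatFunc F) = rsK lg P (∏ i, tt ℓ a (tw e D) i j ^ c i) := by
    have h3 := (hcl j).2
    rw [(isAdd_rsK hlg P).div (d j).ne_zero (ht0 j)] at h3
    exact sub_eq_zero.1 h3
  have h0 : ∏ P ∈ D, pK P ≠ 0 := prod_pK_ne_zero D id
  rw [h2, ram_formula (G := fun i j => rsK lg P (qK (e i - e j)))
      (r := ∑ P' ∈ D.erase P, sy lg P.1 P'.1) ha hs (isAdd_ordKZ ℓ P) (isAdd_rsK hlg P) hE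
    one_ne_zero ?_ ?_ ?_ c _ h1 j]
  · intro i j hij
    have h4 := prod_aux (isAdd_ordKZ ℓ P) D
    have h5 : (∑ P' ∈ D, ((ordK P (pK P') : ℤ) : ZMod ℓ)) +
        ((ordK P (qK (e i - e j)) : ℤ) : ZMod ℓ) = 1 := by
      rw [ordK_not_dvd (not_dvd_sub hS (hD P hP) hij), sum_congr rfl fun Q _ => by
        rw [ordK_prime P Q, Int.cast_ite, Int.cast_one, Int.cast_zero]]
      rw [sum_ite_eq, if_pos hP, Int.cast_zero, add_zero]
    rw [tw_sub_eq]
    refine (isAdd_ordKZ ℓ P _ _ h0 (qK_ne_zero (e_sub_ne hS hij))).trans ?_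
    exact (congrArg (fun z : ZMod ℓ => z + ((ordK P (qK (e i - e j)) : ℤ) : ZMod ℓ)) h4).trans h5
  · intro i j hij
    rw [tw_sub_eq, rsK_mul hlg P h0 (qK_ne_zero (e_sub_ne hS hij)), prod_aux (isAdd_rsK hlg P),
      ← add_sum_erase D _ hP, rsK_prime hlg P P, if_pos rfl, zero_add,
      sum_congr (s₁ := D.erase P) rfl fun Q hQ => by
        rw [rsK_prime hlg P Q, if_neg (ne_of_mem_erase hQ).symm]]
  · intro i j hij
    exact rsK_symm hlg hm P hS hij

end Global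

end Pool.Agent.Helper54.PT
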